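import Pool.Agent.VG.Derived

/-!
# The module data over `ℤ`
-/

set_option autoImplicit false

open CategoryTheory Category Limits Pretriangulated Triangulated
open scoped ZeroObject

universe w

namespace Pool.Agent.VG.Data

/-- `X = ℤ/16 × ℤ/4` -/
abbrev X := ZMod 16 × ZMod 4

def r : X →+ ZMod 8 where
  toFun x := (x.1.val + 2 * x.2.val : ℕ)
  map_zero' := by decide +kernel
  map_add' := by decide +kernel

def f : X →+ ZMod 8 where
  toFun x := (x.1.val : ℕ)
  map_zero' := by decide +kernel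
  map_add' := by decide +kernel

def t : ZMod 2 →+ ZMod 8 where
  toFun x := (4 * x.val : ℕ)
  map_zero' := by decide +kernel
  map_add' := by decide +kernel

def d : ZMod 8 →+ ZMod 4 where
  toFun x := (x.val : ℕ)
  map_zero' := by decide +kernel
  map_add' := by decide +kernel

def χ : X →+ X where
  toFun x := ((4 * x.2.val : ℕ), (2 * x.2.val : ℕ))
  map_zero' := by decide +kernel
  map_add' := by decide +kernel

def π : X →+ ZMod 2 where
  toFun x := (x.2.val : ℕ)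
  map_zero' := by decide +kernel
  map_add' := by decide +kernel

def ε : ZMod 2 →+ X where
  toFun x := ((8 * x.val : ℕ), 0)
  map_zero' := by decide +kernel
  map_add' := by decide +kernel

def ε' : ZMod 8 →+ X where
  toFun x := ((2 * x.val : ℕ), 0)
  map_zero' := by decide +kernel
  map_add' := by decide +kernel

def ξ₁ : ZMod 8 →+ X where
  toFun x := ((2 * x.val : ℕ), (x.val : ℕ))
  map_zero' := by decide +kernel
  map_add' := by decide +kernel

def ξ₂ : ZMod 4 →+ X where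
  toFun x := (0, -(x.val : ℕ))
  map_zero' := by decide +kernel
  map_add' := by decide +kernel

/-- reduction modulo `2` -/
def c : ZMod 4 →+ ZMod 2 where
  toFun x := (x.val : ℕ)
  map_zero' := by decide +kernel
  map_add' := by decide +kernel

/-- A homomorphism out of `ZMod n` is determined by its value at `1`. -/
lemma hom_zmod {n : ℕ} [NeZero n] {G : Type} [AddCommGroup G] (g : ZMod n →+ G) (x : ZMod n) :
    g x = x.val • g 1 := by
  rw [← map_nsmul]
  congr 1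
  rw [nsmul_eq_mul, mul_one, ZMod.natCast_zmod_val]

/-- morphism of `ModuleCat ℤ` attached to an additive map -/
abbrev mk {G H : Type} [AddCommGroup G] [AddCommGroup H] (g : G →+ H) :
    ModuleCat.of ℤ G ⟶ ModuleCat.of ℤ H := ModuleCat.ofHom g.toIntLinearMap

lemma mk_ext {G H : Type} [AddCommGroup G] [AddCommGroup H]
    {a b : ModuleCat.of ℤ G ⟶ ModuleCat.of ℤ H} (h : ∀ x : G, a.hom x = b.hom x) : a = b := by
  ext x
  exact h x

lemma mk_surj {G H : Type} [AddCommGroup G] [AddCommGroup H]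
    (a : ModuleCat.of ℤ G ⟶ ModuleCat.of ℤ H) : ∃ g : G →+ H, a = mk g :=
  ⟨a.hom.toAddMonoidHom, by ext x; rfl⟩

lemma zero : mk t ≫ mk d = 0 := by
  apply mk_ext
  show ∀ x : ZMod 2, d (t x) = 0
  decide +kernel

lemma shortExact : (ShortComplex.mk (mk t) (mk d) zero).ShortExact := by
  have h1 : Mono (mk t) := by
    rw [ModuleCat.mono_iff_injective]
    show Function.Injective t
    rw [Function.Injective]
    decide +kernel
  have h2 : Epi (mk d) := by
    rw [ModuleCat.epi_iff_surjective]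
    show Function.Surjective d
    rw [Function.Surjective]
    decide +kernel
  refine ShortComplex.ShortExact.mk' ?_ h1 h2
  rw [ShortComplex.moduleCat_exact_iff]
  show ∀ x : ZMod 8, d x = 0 → ∃ y : ZMod 2, t y = x
  decide +kernel

lemma c1 : mk χ ≫ mk r = 0 := by
  apply mk_ext
  show ∀ x : X, r (χ x) = 0
  decide +kernel

lemma c2 : mk χ ≫ mk f = mk π ≫ mk t := by
  apply mk_ext
  show ∀ x : X, f (χ x) = t (π x)
  decide +kernel

lemma c3 : mk ε ≫ mk r = 0 := by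
  apply mk_ext
  show ∀ x : ZMod 2, r (ε x) = 0
  decide +kernel

lemma c4 : mk ε ≫ mk f = 0 := by
  apply mk_ext
  show ∀ x : ZMod 2, f (ε x) = 0
  decide +kernel

lemma c5 : mk ε = mk t ≫ mk ε' := by
  apply mk_ext
  show ∀ x : ZMod 2, ε x = ε' (t x)
  decide +kernel

lemma c6 : mk χ + mk f ≫ mk ε' = mk r ≫ mk ξ₁ + mk f ≫ mk d ≫ mk ξ₂ := by
  apply mk_ext
  show ∀ x : X, χ x + ε' (f x) = ξ₁ (r x) + ξ₂ (d (f x))
  decide +kernel

lemma n1 : mk χ ≫ mk χ + mk π ≫ mk ε = 0 := by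
  apply mk_ext
  show ∀ x : X, χ (χ x) + ε (π x) = 0
  decide +kernel

lemma n2 : mk ε ≫ mk χ = 0 := by
  apply mk_ext
  show ∀ x : ZMod 2, χ (ε x) = 0
  decide +kernel

lemma n3 : mk χ ≫ mk π = 0 := by
  apply mk_ext
  show ∀ x : X, π (χ x) = 0
  decide +kernel

lemma n4 : mk ε ≫ mk π = 0 := by
  apply mk_ext
  show ∀ x : ZMod 2, π (ε x) = 0
  decide +kernel

lemma E5 (α : ModuleCat.of ℤ (ZMod 8) ⟶ ModuleCat.of ℤ (ZMod 2))
    (β : ModuleCat.of ℤ (ZMod 4) ⟶ ModuleCat.of ℤ (ZMod 2)) :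
    mk π ≠ mk r ≫ α + mk f ≫ mk d ≫ β := by
  obtain ⟨α, rfl⟩ := mk_surj α
  obtain ⟨β, rfl⟩ := mk_surj β
  intro h
  have h1 : π (0, 1) = α (r (0, 1)) + β (d (f (0, 1))) :=
    congrArg (fun z => z.hom ((0, 1) : X)) h
  have h2 : r (0, 1) = 1 + 1 := by decide +kernel
  have h3 : d (f (0, 1)) = 0 := by decide +kernel
  have h4 : π (0, 1) = 1 := by decide +kernel
  rw [h2, h3, h4, map_add, map_zero, add_zero] at h1
  generalize α 1 = a at h1
  revert a
  decide +kernel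

lemma V1 (φ : ModuleCat.of ℤ X ⟶ ModuleCat.of ℤ (ZMod 2))
    (τ : ModuleCat.of ℤ (ZMod 4) ⟶ ModuleCat.of ℤ (ZMod 8))
    (h : φ ≫ mk t = (mk f ≫ mk d) ≫ τ) :
    ∃ τ' : ModuleCat.of ℤ (ZMod 4) ⟶ ModuleCat.of ℤ (ZMod 2), φ = (mk f ≫ mk d) ≫ τ' := by
  obtain ⟨φ, rfl⟩ := mk_surj φ
  obtain ⟨τ, rfl⟩ := mk_surj τ
  have h0 : ∀ x : X, t (φ x) = τ (d (f x)) := fun x => congrArg (fun z => z.hom x) h
  have h1 : φ (0, 1) = 0 := by
    have := h0 (0, 1)
    have h3 : d (f (0, 1)) = 0 := by decide +kernel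
    rw [h3, map_zero] at this
    revert this
    generalize φ (0, 1) = a
    revert a
    decide +kernel
  refine ⟨mk ((AddMonoidHom.mulRight (φ (1, 0))).comp c), ?_⟩
  apply mk_ext
  show ∀ x : X, φ x = c (d (f x)) * φ (1, 0)
  intro x
  have hx : x = x.1.val • ((1, 0) : X) + x.2.val • ((0, 1) : X) := by
    revert x
    decide +kernel
  have h2 : φ x = x.1.val • φ (1, 0) := by
    conv_lhs => rw [hx]
    rw [map_add, map_nsmul, map_nsmul, h1, smul_zero, add_zero]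
  rw [h2]
  have key : ∀ (x : X) (a : ZMod 2), x.1.val • a = c (d (f x)) * a := by decide +kernel
  exact key x _

lemma V2 (ζ₁ : ModuleCat.of ℤ (ZMod 8) ⟶ ModuleCat.of ℤ X)
    (ζ₂ : ModuleCat.of ℤ (ZMod 4) ⟶ ModuleCat.of ℤ X)
    (h : (mk r ≫ ζ₁ + mk f ≫ mk d ≫ ζ₂) ≫ mk f ≫ mk d = 0) :
    ζ₁ ≫ mk f ≫ mk d = 0 ∧ ζ₂ ≫ mk f ≫ mk d = 0 := by
  obtain ⟨ζ₁, rfl⟩ := mk_surj ζ₁
  obtain ⟨ζ₂, rfl⟩ := mk_surj ζ₂
  have h0 : ∀ x : X, d (f (ζ₁ (r x) + ζ₂ (d (f x)))) = 0 :=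
    fun x => congrArg (fun z => z.hom x) h
  have h1 : d (f (ζ₂ 1)) = 0 := by
    have h4 : (4 : ℕ) • ζ₂ 1 = 0 := by
      rw [← map_nsmul]
      have : (4 : ℕ) • (1 : ZMod 4) = 0 := by decide +kernel
      rw [this, map_zero]
    revert h4
    generalize ζ₂ 1 = a
    revert a
    decide +kernel
  have h2 : ∀ y, d (f (ζ₂ y)) = 0 := by
    intro y
    rw [hom_zmod ζ₂ y, map_nsmul, map_nsmul, h1, smul_zero]
  have h3 : d (f (ζ₁ 1)) = 0 := by
    have := h0 (1, 0)
    rw [map_add, map_add, h2, add_zero] at this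
    exact this
  have h4 : ∀ y, d (f (ζ₁ y)) = 0 := by
    intro y
    rw [hom_zmod ζ₁ y, map_nsmul, map_nsmul, h3, smul_zero]
  exact ⟨mk_ext h4, mk_ext h2⟩

/-- multiplication by `2` on `ℤ/4` -/
def dbl : ZMod 4 →+ ZMod 4 where
  toFun x := x + x
  map_zero' := by decide +kernel
  map_add' := by decide +kernel

lemma dbl_not_regular (g : ModuleCat.of ℤ (ZMod 4) ⟶ ModuleCat.of ℤ (ZMod 4)) :
    mk dbl ≫ g ≫ mk dbl ≠ mk dbl := by
  obtain ⟨g, rfl⟩ := mk_surj g
  intro h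
  have h1 : dbl (g (dbl 1)) = dbl 1 := congrArg (fun z => z.hom (1 : ZMod 4)) h
  have h2 : dbl 1 = 1 + 1 := by decide +kernel
  rw [h2, map_add] at h1
  generalize g 1 = a at h1
  revert a
  decide +kernel

end Pool.Agent.VG.Data
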