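import Pool.Agent.VG.Part2

/-!
# The criterion
-/

set_option autoImplicit false

open CategoryTheory Category Limits Pretriangulated Triangulated
open scoped ZeroObject

universe v u

namespace Pool.Agent.VG

noncomputable section

variable {C : Type u} [Category.{v} C] [Preadditive C] [HasZeroObject C] [HasShift C ℤ]
  [∀ n : ℤ, (shiftFunctor C n).Additive] [Pretriangulated C] [IsTriangulated C]

theorem exists_good_not_verdierGood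
    {X K M B : C} {t : K ⟶ M} {d : M ⟶ B} {δ : B ⟶ K⟦(1 : ℤ)⟧}
    (hd : Triangle.mk t d δ ∈ distTriang C)
    (r f : X ⟶ M) (χ : X ⟶ X) (π : X ⟶ K) (ε : K ⟶ X) (ε' : M ⟶ X) (ξ₁ : M ⟶ X) (ξ₂ : B ⟶ X)
    (c1 : χ ≫ r = 0) (c2 : χ ≫ f = π ≫ t) (c3 : ε ≫ r = 0) (c4 : ε ≫ f = 0)
    (c5 : ε = t ≫ ε') (c6 : χ + f ≫ ε' = r ≫ ξ₁ + f ≫ d ≫ ξ₂)
    (n1 : χ ≫ χ + π ≫ ε = 0) (n2 : ε ≫ χ = 0) (n3 : χ ≫ π = 0) (n4 : ε ≫ π = 0)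
    (E5 : ∀ (α : M ⟶ K) (β : B ⟶ K), π ≠ r ≫ α + f ≫ d ≫ β)
    (V1 : ∀ (φ : X ⟶ K) (τ : B ⟶ M), φ ≫ t = (f ≫ d) ≫ τ → ∃ τ' : B ⟶ K, φ = (f ≫ d) ≫ τ')
    (V2 : ∀ (ζ₁ : M ⟶ X) (ζ₂ : B ⟶ X), (r ≫ ζ₁ + f ≫ d ≫ ζ₂) ≫ f ≫ d = 0 →
      ζ₁ ≫ f ≫ d = 0 ∧ ζ₂ ≫ f ≫ d = 0)
    (V3 : ∀ l : X⟦(1 : ℤ)⟧ ⟶ B, l = 0) :
    ∃ (T T' : Triangle C) (hT : T ∈ distTriang C) (hT' : T' ∈ distTriang C) (φ : T ⟶ T'),
      Good φ ∧ ¬ VerdierGood hT hT' φ := by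
  have htd : t ≫ d = 0 := z12 hd
  -- the triangle `Δ` on `c' : X ⊞ K ⟶ M ⊞ M`
  obtain ⟨W, i, ω, hΔ⟩ := distinguished_cocone_triangle
    (biprod.desc (biprod.lift r f) (biprod.lift 0 t) : X ⊞ K ⟶ M ⊞ M)
  -- the octahedron
  have comm : (biprod.inr : K ⟶ X ⊞ K) ≫
      (biprod.desc (biprod.lift r f) (biprod.lift 0 t) : X ⊞ K ⟶ M ⊞ M)
      = t ≫ (biprod.inr : M ⟶ M ⊞ M) := by
    ext <;> simp
  let O := someOctahedron comm (dist_inr_fst X K) hΔ (dist_inr hd)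
  have hO1 : (biprod.fst : X ⊞ K ⟶ X) ≫ O.m₁ =
    (biprod.desc (biprod.lift r f) (biprod.lift 0 t) : X ⊞ K ⟶ M ⊞ M) ≫
      biprod.map (𝟙 M) d := O.comm₁
  have hO3 : biprod.map (𝟙 M) d ≫ O.m₃ = i := O.comm₃
  have hO4 : (biprod.snd ≫ δ) ≫ (biprod.inr : K ⟶ X ⊞ K)⟦(1 : ℤ)⟧' = O.m₃ ≫ ω := O.comm₄
  have hO5 : Triangle.mk O.m₁ O.m₃ (ω ≫ (biprod.fst : X ⊞ K ⟶ X)⟦(1 : ℤ)⟧') ∈ distTriang C :=
    O.mem
  have hm1 : O.m₁ = biprod.lift r (f ≫ d) := by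
    have := congrArg (fun x => (biprod.inl : X ⟶ X ⊞ K) ≫ x) hO1
    simp only [biprod.inl_fst_assoc, biprod.inl_desc_assoc] at this
    rw [this]
    ext <;> simp
  generalize O.m₃ = m at hO3 hO4 hO5
  rw [hm1] at hO5
  have hmω : m ≫ ω = biprod.snd ≫ δ ≫ (biprod.inr : K ⟶ X ⊞ K)⟦(1 : ℤ)⟧' := by
    rw [← hO4, assoc]
  -- the relation `ω ≫ c'⟦1⟧ = 0`
  have hωc : ω ≫ (biprod.desc (biprod.lift r f) (biprod.lift 0 t) :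
      X ⊞ K ⟶ M ⊞ M)⟦(1 : ℤ)⟧' = 0 := z31 hΔ
  have hωf : ω ≫ (biprod.fst : X ⊞ K ⟶ X)⟦(1 : ℤ)⟧' ≫ f⟦(1 : ℤ)⟧'
      + ω ≫ (biprod.snd : X ⊞ K ⟶ K)⟦(1 : ℤ)⟧' ≫ t⟦(1 : ℤ)⟧' = 0 := by
    have h1 : (biprod.desc (biprod.lift r f) (biprod.lift 0 t) : X ⊞ K ⟶ M ⊞ M) ≫ biprod.snd
        = biprod.fst ≫ f + biprod.snd ≫ t := by ext <;> simp
    have h2 := congrArg (fun x => x ≫ (biprod.snd : M ⊞ M ⟶ M)⟦(1 : ℤ)⟧') hωc
    simp only [assoc, ← Functor.map_comp, h1, zero_comp] at h2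
    rw [Functor.map_add, Functor.map_comp, Functor.map_comp, Preadditive.comp_add] at h2
    exact h2
  -- the two fill-ins
  have hT' := rot_dist hd
  set u : X ⟶ M ⊞ B := biprod.lift r (f ≫ d) with hu
  set w : W ⟶ X⟦(1 : ℤ)⟧ := ω ≫ (biprod.fst : X ⊞ K ⟶ X)⟦(1 : ℤ)⟧' with hw
  set h : W ⟶ K⟦(1 : ℤ)⟧ := ω ≫ (biprod.snd : X ⊞ K ⟶ K)⟦(1 : ℤ)⟧' with hh
  have hwu : w ≫ u⟦(1 : ℤ)⟧' = 0 := z31 hO5
  have hwf : w ≫ f⟦(1 : ℤ)⟧' + h ≫ t⟦(1 : ℤ)⟧' = 0 := by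
    rw [hw, hh, assoc, assoc]; exact hωf
  have hmw : m ≫ w = 0 := z23 hO5
  have d1 : u ≫ (biprod.snd : M ⊞ B ⟶ B) = f ≫ d := by rw [hu]; simp
  have d2 : m ≫ h = (biprod.snd : M ⊞ B ⟶ B) ≫ δ := by
    rw [hh, ← assoc, hmω]; simp
  have d3 : w ≫ f⟦(1 : ℤ)⟧' = h ≫ (-(t⟦(1 : ℤ)⟧')) := by
    rw [Preadditive.comp_neg, eq_neg_iff_add_eq_zero, hwf]
  set h' : W ⟶ K⟦(1 : ℤ)⟧ := h - w ≫ π⟦(1 : ℤ)⟧' with hh'
  have d2' : m ≫ h' = (biprod.snd : M ⊞ B ⟶ B) ≫ δ := by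
    rw [hh', Preadditive.comp_sub, d2, ← assoc, hmw, zero_comp, sub_zero]
  -- some relations
  have hχu : χ ≫ u = 0 := by
    rw [hu]
    ext
    · simp [c1]
    · simp [reassoc_of% c2, htd]
  have hεu : ε ≫ u = 0 := by
    rw [hu]
    ext
    · simp [c3]
    · simp [reassoc_of% c4]
  have hwε : w ≫ χ⟦(1 : ℤ)⟧' = h ≫ ε⟦(1 : ℤ)⟧' := by
    have e1 : w ≫ (χ + f ≫ ε')⟦(1 : ℤ)⟧' = 0 := by
      have : χ + f ≫ ε' = u ≫ biprod.desc ξ₁ ξ₂ := by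
        rw [c6, hu, biprod.lift_desc, assoc]
      rw [this, Functor.map_comp, ← assoc, hwu, zero_comp]
    rw [Functor.map_add, Functor.map_comp, Preadditive.comp_add] at e1
    have e2 : h ≫ ε⟦(1 : ℤ)⟧' = -(w ≫ f⟦(1 : ℤ)⟧' ≫ ε'⟦(1 : ℤ)⟧') := by
      rw [c5, Functor.map_comp, ← assoc, ← assoc, d3, Preadditive.comp_neg,
        Preadditive.neg_comp, neg_neg]
    rw [e2, ← add_eq_zero_iff_eq_neg, e1]
  have d3' : w ≫ f⟦(1 : ℤ)⟧' = h' ≫ (-(t⟦(1 : ℤ)⟧')) := by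
    have e1 : w ≫ π⟦(1 : ℤ)⟧' ≫ t⟦(1 : ℤ)⟧' = 0 := by
      rw [← Functor.map_comp, ← c2, Functor.map_comp, ← assoc, hwε, assoc, ← Functor.map_comp,
        c4, Functor.map_zero, comp_zero]
    have e2 : (w ≫ π⟦(1 : ℤ)⟧') ≫ (-(t⟦(1 : ℤ)⟧')) = 0 := by
      rw [Preadditive.comp_neg, assoc, e1, neg_zero]
    rw [hh', Preadditive.sub_comp, e2, sub_zero, d3]
  have hδε : δ ≫ ε⟦(1 : ℤ)⟧' = 0 := by
    rw [c5, Functor.map_comp, ← assoc, z31 hd, zero_comp]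
  -- first good
  have g1 := good_octahedral hd r f hΔ m hO3 hmω
  have g2 := good_change f (biprod.snd : M ⊞ B ⟶ B) h h' (χ⟦(1 : ℤ)⟧') (π⟦(1 : ℤ)⟧')
    (ε⟦(1 : ℤ)⟧') hh' hwε hδε
    (by rw [← Functor.map_comp, hχu, Functor.map_zero])
    (by rw [← Functor.map_comp, hεu, Functor.map_zero])
    (by rw [Preadditive.comp_neg, ← Functor.map_comp, ← Functor.map_comp, c2, add_neg_cancel])
    (by rw [← Functor.map_comp, c4, Functor.map_zero])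
    (by rw [← Functor.map_comp, ← Functor.map_comp, ← Functor.map_add, n1, Functor.map_zero])
    (by rw [← Functor.map_comp, n2, Functor.map_zero])
    (by rw [← Functor.map_comp, n3, Functor.map_zero])
    (by rw [← Functor.map_comp, n4, Functor.map_zero]) g1
  let φ : Triangle.mk u m w ⟶ Triangle.mk d δ (-(t⟦(1 : ℤ)⟧')) :=
    { hom₁ := f, hom₂ := biprod.snd, hom₃ := h, comm₁ := d1, comm₂ := d2, comm₃ := d3 }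
  let φ' : Triangle.mk u m w ⟶ Triangle.mk d δ (-(t⟦(1 : ℤ)⟧')) :=
    { hom₁ := f, hom₂ := biprod.snd, hom₃ := h', comm₁ := d1, comm₂ := d2', comm₃ := d3' }
  have hne : φ.hom₃ ≠ φ'.hom₃ := by
    intro heq
    change h = h - w ≫ π⟦(1 : ℤ)⟧' at heq
    have hwπ : w ≫ π⟦(1 : ℤ)⟧' = 0 := by
      rw [eq_comm, sub_eq_self] at heq
      exact heq
    obtain ⟨g, hg⟩ := cy1 hO5 _ hwπ
    obtain ⟨g', rfl⟩ := (shiftFunctor C (1 : ℤ)).map_surjective g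
    have hπ : π = u ≫ g' := by
      apply (shiftFunctor C (1 : ℤ)).map_injective
      rw [hg, Functor.map_comp]
    refine E5 (biprod.inl ≫ g') (biprod.inr ≫ g') ?_
    rw [hπ, hu]
    have : g' = biprod.desc (biprod.inl ≫ g') (biprod.inr ≫ g') := by ext <;> simp
    conv_lhs => rw [this]
    rw [biprod.lift_desc, assoc]
  by_cases hv : VerdierGood hO5 hT' φ
  · refine ⟨_, _, hO5, hT', φ', g2, fun hv' => hne ?_⟩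
    refine verdier_unique hO5 hT' φ φ' rfl rfl ?_ ?_ hv hv'
    · intro A p q hA κ k1 k2
      refine unique_m1 hO5 (g := (biprod.snd : M ⊞ B ⟶ B)) hA ?_ V3 κ k1 k2
      intro ζ hζ
      rw [d1] at hζ ⊢
      have hz : ζ = biprod.desc (biprod.inl ≫ ζ) (biprod.inr ≫ ζ) := by ext <;> simp
      have key := V2 (biprod.inl ≫ ζ) (biprod.inr ≫ ζ) (by
        rw [← hζ, ← assoc u]
        congr 1
        conv_rhs => rw [hz]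
        rw [hu, biprod.lift_desc, assoc])
      ext
      · simpa using key.1
      · simpa using key.2
    · intro A p q hA μ k1 k2
      refine unique_m3 hA t ?_ μ k1 ?_
      · intro φ₀ τ hτ
        have hτ' : φ₀ ≫ t = (f ≫ d) ≫ τ := by
          rw [← d1]; exact hτ
        obtain ⟨τ', h1⟩ := V1 φ₀ τ hτ'
        exact ⟨τ', by rw [h1, ← d1]; rfl⟩
      · have gen : ∀ ν : A ⟶ K⟦(1 : ℤ)⟧, ν ≫ (-(t⟦(1 : ℤ)⟧')) = 0 → ν ≫ t⟦(1 : ℤ)⟧' = 0 := by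
          intro ν hν
          rwa [Preadditive.comp_neg, neg_eq_zero] at hν
        exact gen μ k2
  · exact ⟨_, _, hO5, hT', φ, g1, hv⟩

end

end Pool.Agent.VG
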