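import Mathlib

/-!
# Good and Verdier good maps of distinguished triangles
-/

set_option autoImplicit false

open CategoryTheory Category Limits Pretriangulated Triangulated

universe v u

namespace Pool.Agent.VG

noncomputable section

variable {C : Type u} [Category.{v} C] [Preadditive C] [HasZeroObject C] [HasShift C ℤ]
  [∀ n : ℤ, (shiftFunctor C n).Additive] [Pretriangulated C]

/-- The mapping cone of a map of triangles `(f, g, h) : T ⟶ T'`, as a candidate triangle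
`Y ⊞ X' ⟶ Z ⊞ Y' ⟶ X⟦1⟧ ⊞ Z' ⟶ (Y ⊞ X')⟦1⟧` with the matrices
`(-v 0; g u')`, `(-w 0; h v')`, `(-Σu 0; Σf w')`. -/
def coneTri {T T' : Triangle C} (φ : T ⟶ T') : Triangle C :=
  Triangle.mk
    (biprod.desc (biprod.lift (-T.mor₂) φ.hom₂) (biprod.lift 0 T'.mor₁) :
      T.obj₂ ⊞ T'.obj₁ ⟶ T.obj₃ ⊞ T'.obj₂)
    (biprod.desc (biprod.lift (-T.mor₃) φ.hom₃) (biprod.lift 0 T'.mor₂) :
      T.obj₃ ⊞ T'.obj₂ ⟶ T.obj₁⟦(1 : ℤ)⟧ ⊞ T'.obj₃)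
    (biprod.desc (-(T.mor₁⟦1⟧') ≫ (biprod.inl : T.obj₂ ⟶ T.obj₂ ⊞ T'.obj₁)⟦1⟧'
        + φ.hom₁⟦1⟧' ≫ (biprod.inr : T'.obj₁ ⟶ T.obj₂ ⊞ T'.obj₁)⟦1⟧')
      (T'.mor₃ ≫ (biprod.inr : T'.obj₁ ⟶ T.obj₂ ⊞ T'.obj₁)⟦1⟧'))

/-- A map of triangles is good if its mapping cone is a distinguished triangle. -/
def Good {T T' : Triangle C} (φ : T ⟶ T') : Prop := coneTri φ ∈ distTriang C

/-- A map `(f, g, h)` of distinguished triangles is Verdier good if `h = β₂ ∘ α₁`, where `α₁` is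
part of an octahedron for `g ∘ u` and `β₂` is part of an octahedron for `u' ∘ f`, with the same
distinguished triangle on `g ∘ u = u' ∘ f`. -/
def VerdierGood {T T' : Triangle C} (hT : T ∈ distTriang C) (hT' : T' ∈ distTriang C)
    (φ : T ⟶ T') : Prop :=
  ∃ (A X'' Y'' : C) (v₁₃ : T'.obj₂ ⟶ A) (w₁₃ : A ⟶ T.obj₁⟦(1 : ℤ)⟧)
    (h₁₃ : Triangle.mk (T.mor₁ ≫ φ.hom₂) v₁₃ w₁₃ ∈ distTriang C)
    (f' : T'.obj₁ ⟶ X'') (f'' : X'' ⟶ T.obj₁⟦(1 : ℤ)⟧)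
    (hf : Triangle.mk φ.hom₁ f' f'' ∈ distTriang C)
    (g' : T'.obj₂ ⟶ Y'') (g'' : Y'' ⟶ T.obj₂⟦(1 : ℤ)⟧)
    (hg : Triangle.mk φ.hom₂ g' g'' ∈ distTriang C)
    (O₁ : Octahedron (u₁₂ := T.mor₁) (u₂₃ := φ.hom₂) (u₁₃ := T.mor₁ ≫ φ.hom₂) rfl
      (v₁₂ := T.mor₂) (w₁₂ := T.mor₃) hT hg h₁₃)
    (O₂ : Octahedron (u₁₂ := φ.hom₁) (u₂₃ := T'.mor₁) (u₁₃ := T.mor₁ ≫ φ.hom₂) φ.comm₁.symm
      hf (v₂₃ := T'.mor₂) (w₂₃ := T'.mor₃) hT' h₁₃),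
    φ.hom₃ = O₁.m₁ ≫ O₂.m₃

end

end Pool.Agent.VG
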