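import Pool.Agent.VG.Crit

/-!
# The criterion in a derived category
-/

set_option autoImplicit false

open CategoryTheory Category Limits Pretriangulated Triangulated
open scoped ZeroObject

universe w v u

namespace Pool.Agent.VG

noncomputable section

variable {A : Type u} [Category.{v} A] [Abelian A] [HasDerivedCategory.{w} A]

lemma hom_shift_zero (X B : A)
    (l : ((DerivedCategory.singleFunctor A 0).obj X)⟦(1 : ℤ)⟧ ⟶
      (DerivedCategory.singleFunctor A 0).obj B) : l = 0 := by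
  have h1 : (DerivedCategory.TStructure.t (C := A)).IsLE
    (((DerivedCategory.singleFunctor A 0).obj X)⟦(1 : ℤ)⟧) (-1) :=
    TStructure.isLE_shift _ _ 0 1 (-1) (by norm_num)
  exact (DerivedCategory.TStructure.t (C := A)).zero l (-1) 0 (by norm_num)

theorem exists_good_not_verdierGood_derived
    {X K M B : A} {t : K ⟶ M} {d : M ⟶ B} (zero : t ≫ d = 0)
    (hS : (ShortComplex.mk t d zero).ShortExact)
    (r f : X ⟶ M) (χ : X ⟶ X) (π : X ⟶ K) (ε : K ⟶ X) (ε' : M ⟶ X) (ξ₁ : M ⟶ X) (ξ₂ : B ⟶ X)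
    (c1 : χ ≫ r = 0) (c2 : χ ≫ f = π ≫ t) (c3 : ε ≫ r = 0) (c4 : ε ≫ f = 0)
    (c5 : ε = t ≫ ε') (c6 : χ + f ≫ ε' = r ≫ ξ₁ + f ≫ d ≫ ξ₂)
    (n1 : χ ≫ χ + π ≫ ε = 0) (n2 : ε ≫ χ = 0) (n3 : χ ≫ π = 0) (n4 : ε ≫ π = 0)
    (E5 : ∀ (α : M ⟶ K) (β : B ⟶ K), π ≠ r ≫ α + f ≫ d ≫ β)
    (V1 : ∀ (φ : X ⟶ K) (τ : B ⟶ M), φ ≫ t = (f ≫ d) ≫ τ → ∃ τ' : B ⟶ K, φ = (f ≫ d) ≫ τ')
    (V2 : ∀ (ζ₁ : M ⟶ X) (ζ₂ : B ⟶ X), (r ≫ ζ₁ + f ≫ d ≫ ζ₂) ≫ f ≫ d = 0 →
      ζ₁ ≫ f ≫ d = 0 ∧ ζ₂ ≫ f ≫ d = 0) :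
    ∃ (T T' : Triangle (DerivedCategory A)) (hT : T ∈ distTriang _) (hT' : T' ∈ distTriang _)
      (φ : T ⟶ T'), Good φ ∧ ¬ VerdierGood hT hT' φ := by
  let S := DerivedCategory.singleFunctor A 0
  have hd : Triangle.mk (S.map t) (S.map d) hS.singleδ ∈ distTriang (DerivedCategory A) :=
    hS.singleTriangle_distinguished
  refine exists_good_not_verdierGood hd (S.map r) (S.map f) (S.map χ) (S.map π) (S.map ε)
    (S.map ε') (S.map ξ₁) (S.map ξ₂) ?_ ?_ ?_ ?_ ?_ ?_ ?_ ?_ ?_ ?_ ?_ ?_ ?_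
    (hom_shift_zero X B)
  · rw [← Functor.map_comp, c1, Functor.map_zero]
  · rw [← Functor.map_comp, c2, Functor.map_comp]
  · rw [← Functor.map_comp, c3, Functor.map_zero]
  · rw [← Functor.map_comp, c4, Functor.map_zero]
  · rw [← Functor.map_comp, ← c5]
  · rw [← Functor.map_comp, ← Functor.map_comp, ← Functor.map_comp, ← Functor.map_comp,
      ← Functor.map_add, ← Functor.map_add, c6]
  · rw [← Functor.map_comp, ← Functor.map_comp, ← Functor.map_add, n1, Functor.map_zero]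
  · rw [← Functor.map_comp, n2, Functor.map_zero]
  · rw [← Functor.map_comp, n3, Functor.map_zero]
  · rw [← Functor.map_comp, n4, Functor.map_zero]
  · intro α β h
    obtain ⟨α, rfl⟩ := S.map_surjective α
    obtain ⟨β, rfl⟩ := S.map_surjective β
    apply E5 α β
    apply S.map_injective
    rw [h, Functor.map_add, Functor.map_comp, Functor.map_comp, Functor.map_comp]
  · intro φ τ h
    obtain ⟨φ, rfl⟩ := S.map_surjective φ
    obtain ⟨τ, rfl⟩ := S.map_surjective τ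
    rw [← Functor.map_comp, ← Functor.map_comp, ← Functor.map_comp] at h
    obtain ⟨τ', h'⟩ := V1 φ τ (S.map_injective h)
    exact ⟨S.map τ', by rw [h', Functor.map_comp, Functor.map_comp]⟩
  · intro ζ₁ ζ₂ h
    obtain ⟨ζ₁, rfl⟩ := S.map_surjective ζ₁
    obtain ⟨ζ₂, rfl⟩ := S.map_surjective ζ₂
    have h' := V2 ζ₁ ζ₂ (by
      apply S.map_injective
      rw [Functor.map_zero, ← h]
      simp only [Functor.map_comp, Functor.map_add])
    constructor
    · rw [← Functor.map_comp, ← Functor.map_comp, h'.1, Functor.map_zero]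
    · rw [← Functor.map_comp, ← Functor.map_comp, h'.2, Functor.map_zero]

end

end Pool.Agent.VG
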