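import Pool.Agent.VG.Sum

/-!
# A Verdier good map of triangles which is not good
-/

set_option autoImplicit false

open CategoryTheory Category Limits Pretriangulated Triangulated
open scoped ZeroObject

universe v u

namespace Pool.Agent.VG

noncomputable section

variable {C : Type u} [Category.{v} C] [Preadditive C] [HasZeroObject C] [HasShift C ℤ]
  [∀ n : ℤ, (shiftFunctor C n).Additive] [Pretriangulated C]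

lemma rot_dist {X Y Z : C} {u : X ⟶ Y} {v : Y ⟶ Z} {w : Z ⟶ X⟦(1 : ℤ)⟧}
    (h : Triangle.mk u v w ∈ distTriang C) :
    Triangle.mk v w (-(u⟦(1 : ℤ)⟧')) ∈ distTriang C := rot_of_distTriang _ h

/-- the negative-rotated triangle `(-v, -w, -Σu)` -/
lemma negrot_dist {X Y Z : C} {u : X ⟶ Y} {v : Y ⟶ Z} {w : Z ⟶ X⟦(1 : ℤ)⟧}
    (h : Triangle.mk u v w ∈ distTriang C) :
    Triangle.mk (-v) (-w) (-(u⟦(1 : ℤ)⟧')) ∈ distTriang C := by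
  have : IsIso (-(𝟙 Z)) := ⟨-(𝟙 Z), by simp, by simp⟩
  exact dist_of_iso (rot_dist h) (𝟙 _) (-(𝟙 _)) (𝟙 _) (by simp) (by simp) (by simp)

lemma biprod_dist (X Y : C) : Triangle.mk (biprod.inl : X ⟶ X ⊞ Y) (biprod.snd : X ⊞ Y ⟶ Y)
    (0 : Y ⟶ X⟦(1 : ℤ)⟧) ∈ distTriang C := binaryBiproductTriangle_distinguished X Y

/-- adding a contractible triangle `0 ⟶ Y' = Y'` or rather `Y' = Y' ⟶ 0` on the right -/
lemma add_contr_right {X Y Z : C} {u : X ⟶ Y} {v : Y ⟶ Z} {w : Z ⟶ X⟦(1 : ℤ)⟧}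
    (h : Triangle.mk u v w ∈ distTriang C) (W : C) :
    Triangle.mk (biprod.map u (𝟙 W)) (biprod.fst ≫ v)
      (w ≫ (biprod.inl : X ⟶ X ⊞ W)⟦(1 : ℤ)⟧') ∈ distTriang C := by
  have h1 := sum_dist h (contractible_distinguished W)
  have : IsIso (biprod.fst : Z ⊞ (0 : C) ⟶ Z) :=
    ⟨biprod.inl, by ext; simp, by simp⟩
  refine dist_of_iso h1 (𝟙 _) (𝟙 _) (biprod.fst : Z ⊞ (0 : C) ⟶ Z) (by simp) (by simp) ?_
  unfold shIn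
  rw [CategoryTheory.Functor.map_id, comp_id]
  ext
  simp

/-- adding a contractible triangle on the left -/
lemma add_contr_left {X Y Z : C} {u : X ⟶ Y} {v : Y ⟶ Z} {w : Z ⟶ X⟦(1 : ℤ)⟧}
    (h : Triangle.mk u v w ∈ distTriang C) (W : C) :
    Triangle.mk (biprod.map (𝟙 W) u) (biprod.snd ≫ v)
      (w ≫ (biprod.inr : X ⟶ W ⊞ X)⟦(1 : ℤ)⟧') ∈ distTriang C := by
  have h1 := sum_dist (contractible_distinguished W) h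
  have : IsIso (biprod.snd : (0 : C) ⊞ Z ⟶ Z) :=
    ⟨biprod.inr, by ext; simp, by simp⟩
  refine dist_of_iso h1 (𝟙 _) (𝟙 _) (biprod.snd : (0 : C) ⊞ Z ⟶ Z) (by simp) (by simp) ?_
  unfold shIn
  rw [CategoryTheory.Functor.map_id, comp_id]
  ext
  simp

/-- If the square `(f, g) = (u₁, u₂)` on composable maps `X ⟶ W ⟶ Y` has a good fill-in `h`
then `h` factors as `w₁ ≫ κ ≫ v₂`. -/
lemma good_factor {X W Y Z₁ Z₂ : C} {u₁ : X ⟶ W} {v₁ : W ⟶ Z₁} {w₁ : Z₁ ⟶ X⟦(1 : ℤ)⟧}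
    (h₁ : Triangle.mk u₁ v₁ w₁ ∈ distTriang C)
    {u₂ : W ⟶ Y} {v₂ : Y ⟶ Z₂} {w₂ : Z₂ ⟶ W⟦(1 : ℤ)⟧}
    (h₂ : Triangle.mk u₂ v₂ w₂ ∈ distTriang C) (h : Z₁ ⟶ Z₂)
    (c2 : v₁ ≫ h = u₂ ≫ v₂) (c3 : w₁ ≫ u₁⟦(1 : ℤ)⟧' = h ≫ w₂)
    (hgood : Good (T := Triangle.mk u₁ v₁ w₁) (T' := Triangle.mk u₂ v₂ w₂)
      { hom₁ := u₁, hom₂ := u₂, hom₃ := h, comm₁ := rfl, comm₂ := c2, comm₃ := c3 }) :
    ∃ κ : X⟦(1 : ℤ)⟧ ⟶ Y, h = w₁ ≫ κ ≫ v₂ := by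
  -- the cone with `h` replaced by `0` is distinguished
  have e1 : IsIso (biprod.desc (biprod.lift (𝟙 W) (-(𝟙 W))) (biprod.lift 0 (𝟙 W)) :
      W ⊞ W ⟶ W ⊞ W) := by
    refine ⟨biprod.desc (biprod.lift (𝟙 W) (𝟙 W)) (biprod.lift 0 (𝟙 W)), ?_, ?_⟩ <;>
      ext <;> simp
  have hD0 : Triangle.mk
      (biprod.desc (biprod.lift (-v₁) u₂) (biprod.lift 0 u₂) : W ⊞ W ⟶ Z₁ ⊞ Y)
      (biprod.desc (biprod.lift (-w₁) 0) (biprod.lift 0 v₂) :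
        Z₁ ⊞ Y ⟶ X⟦(1 : ℤ)⟧ ⊞ Z₂)
      (biprod.desc (-(u₁⟦1⟧') ≫ (biprod.inl : W ⟶ W ⊞ W)⟦1⟧'
        + u₁⟦1⟧' ≫ (biprod.inr : W ⟶ W ⊞ W)⟦1⟧')
      (w₂ ≫ (biprod.inr : W ⟶ W ⊞ W)⟦1⟧')) ∈ distTriang C := by
    refine dist_of_iso (sum_dist (negrot_dist h₁) h₂)
      (biprod.desc (biprod.lift (𝟙 W) (-(𝟙 W))) (biprod.lift 0 (𝟙 W))) (𝟙 _) (𝟙 _) ?_ ?_ ?_
    · ext <;> simp
    · ext <;> simp
    · apply sh_ext
      · unfold shIn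
        rw [id_comp, assoc, assoc, ← Functor.map_comp]
        ext
        · simp [← Functor.map_comp]
        · simp [← Functor.map_comp]
      · unfold shIn
        rw [id_comp, assoc, assoc, ← Functor.map_comp]
        ext
        · simp [← Functor.map_comp]
        · simp [← Functor.map_comp]
  have hDh : Triangle.mk
      (biprod.desc (biprod.lift (-v₁) u₂) (biprod.lift 0 u₂) : W ⊞ W ⟶ Z₁ ⊞ Y)
      (biprod.desc (biprod.lift (-w₁) h) (biprod.lift 0 v₂) :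
        Z₁ ⊞ Y ⟶ X⟦(1 : ℤ)⟧ ⊞ Z₂)
      (biprod.desc (-(u₁⟦1⟧') ≫ (biprod.inl : W ⟶ W ⊞ W)⟦1⟧'
        + u₁⟦1⟧' ≫ (biprod.inr : W ⟶ W ⊞ W)⟦1⟧')
      (w₂ ≫ (biprod.inr : W ⟶ W ⊞ W)⟦1⟧')) ∈ distTriang C := hgood
  obtain ⟨k, hk1, hk2⟩ := complete_mk hD0 hDh (𝟙 _) (𝟙 _) (by rw [comp_id, id_comp])
  rw [id_comp] at hk1
  rw [CategoryTheory.Functor.map_id, comp_id] at hk2
  -- the component of `k` from `ΣX` to `Z₂`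
  have hh : h = -(w₁ ≫ biprod.inl ≫ k ≫ biprod.snd) := by
    have := congrArg (fun t => biprod.inl ≫ t ≫ biprod.snd) hk1
    simp only [assoc, biprod.inl_desc_assoc, biprod.lift_snd] at this
    rw [← this, ← assoc, ← assoc, ← assoc]
    rw [← Preadditive.neg_comp, ← Preadditive.neg_comp]
    congr 2
    ext <;> simp
  have hk21 : (biprod.inl ≫ k ≫ biprod.snd) ≫ w₂ = 0 := by
    have a1 := congrArg (fun t => biprod.inl ≫ t ≫ (biprod.fst)⟦(1 : ℤ)⟧') hk2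
    have a2 := congrArg (fun t => biprod.inl ≫ t ≫ (biprod.snd)⟦(1 : ℤ)⟧') hk2
    simp only [assoc, biprod.inl_desc_assoc, Preadditive.add_comp, Preadditive.neg_comp,
      sh_inl_fst, sh_inr_fst, sh_inl_snd, sh_inr_snd, comp_id, comp_zero, neg_zero,
      zero_add, add_zero] at a1 a2
    have hk : (biprod.inl : X⟦(1 : ℤ)⟧ ⟶ X⟦(1 : ℤ)⟧ ⊞ Z₂) ≫ k
        = (biprod.inl ≫ k ≫ biprod.fst) ≫ biprod.inl
          + (biprod.inl ≫ k ≫ biprod.snd) ≫ biprod.inr := by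
      ext <;> simp
    rw [reassoc_of% hk] at a1 a2
    simp only [Preadditive.add_comp, assoc, biprod.inl_desc_assoc, biprod.inr_desc_assoc,
      Preadditive.add_comp, Preadditive.neg_comp,
      sh_inl_fst, sh_inr_fst, sh_inl_snd, sh_inr_snd, comp_id, comp_zero, neg_zero,
      zero_add, add_zero, Preadditive.comp_neg] at a1 a2
    rw [neg_inj] at a1
    rw [← a1] at a2
    simpa using a2
  obtain ⟨κ, hκ⟩ := yo3 h₂ _ hk21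
  refine ⟨-κ, ?_⟩
  rw [hh, hκ]
  simp

/-- **A Verdier good map which is good only if `w` is von Neumann regular.** -/
theorem verdierGood_not_good {X Y Z : C} {u : X ⟶ Y} {v : Y ⟶ Z} {w : Z ⟶ X⟦(1 : ℤ)⟧}
    (h : Triangle.mk u v w ∈ distTriang C) :
    ∃ (T T' : Triangle C) (hT : T ∈ distTriang C) (hT' : T' ∈ distTriang C) (φ : T ⟶ T'),
      VerdierGood hT hT' φ ∧ (Good φ → ∃ θ : X⟦(1 : ℤ)⟧ ⟶ Z, w = w ≫ θ ≫ w) := by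
  have huv : u ≫ v = 0 := z12 h
  have hvw : v ≫ w = 0 := z23 h
  have hwu : w ≫ u⟦(1 : ℤ)⟧' = 0 := z31 h
  -- the two triangles
  have h₁ := add_contr_right h Y
  have h₂ := add_contr_left (rot_dist h) Y
  have h₁₃ := sum_dist h (rot_dist h)
  have c2 : ((biprod.fst : Y ⊞ Y ⟶ Y) ≫ v) ≫ w = biprod.map (𝟙 Y) v ≫ biprod.snd ≫ w := by
    simp [hvw]
  have c3 : (w ≫ (biprod.inl : X ⟶ X ⊞ Y)⟦(1 : ℤ)⟧') ≫ (biprod.map u (𝟙 Y))⟦(1 : ℤ)⟧'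
      = w ≫ (-(u⟦(1 : ℤ)⟧')) ≫ (biprod.inr : Y ⟶ Y ⊞ Y)⟦(1 : ℤ)⟧' := by
    rw [assoc, ← Functor.map_comp, biprod.inl_map, Functor.map_comp, reassoc_of% hwu]
    simp [reassoc_of% hwu]
  let φ : Triangle.mk (biprod.map u (𝟙 Y)) (biprod.fst ≫ v)
      (w ≫ (biprod.inl : X ⟶ X ⊞ Y)⟦(1 : ℤ)⟧') ⟶
      Triangle.mk (biprod.map (𝟙 Y) v) (biprod.snd ≫ w)
      ((-(u⟦(1 : ℤ)⟧')) ≫ (biprod.inr : Y ⟶ Y ⊞ Y)⟦(1 : ℤ)⟧') :=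
    { hom₁ := biprod.map u (𝟙 Y), hom₂ := biprod.map (𝟙 Y) v, hom₃ := w,
      comm₁ := rfl, comm₂ := c2, comm₃ := c3 }
  refine ⟨_, _, h₁, h₂, φ, ?_, ?_⟩
  · -- Verdier good
    have h13 : Triangle.mk (biprod.map u (𝟙 Y) ≫ biprod.map (𝟙 Y) v) (biprod.map v w)
        (biprod.map w (-(u⟦(1 : ℤ)⟧')) ≫ shIn X Y) ∈ distTriang C := by
      have : biprod.map u (𝟙 Y) ≫ biprod.map (𝟙 Y) v = biprod.map u v := by ext <;> simp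
      rw [this]
      exact h₁₃
    -- the octahedron for `g ∘ u`
    have a1 : ((biprod.fst : Y ⊞ Y ⟶ Y) ≫ v) ≫ biprod.lift (𝟙 Z) w
        = biprod.map (𝟙 Y) v ≫ biprod.map v w := by
      ext <;> simp [hvw]
    have a2 : biprod.lift (𝟙 Z) w ≫ biprod.map w (-(u⟦(1 : ℤ)⟧')) ≫ shIn X Y
        = w ≫ (biprod.inl : X ⟶ X ⊞ Y)⟦(1 : ℤ)⟧' := by
      apply sh_ext
      · simp
      · simp [hwu]
    have a3 : biprod.map v w ≫ biprod.desc (-w) (𝟙 _) = biprod.snd ≫ w := by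
      ext <;> simp [hvw]
    have a4 : (biprod.map w (-(u⟦(1 : ℤ)⟧')) ≫ shIn X Y) ≫ (biprod.map u (𝟙 Y))⟦(1 : ℤ)⟧'
        = biprod.desc (-w) (𝟙 _) ≫ (-(u⟦(1 : ℤ)⟧')) ≫ (biprod.inr : Y ⟶ Y ⊞ Y)⟦(1 : ℤ)⟧' := by
      apply sh_ext
      · rw [assoc, assoc, ← Functor.map_comp]
        ext <;> simp [Functor.map_comp, hwu, shIn]
      · rw [assoc, assoc, ← Functor.map_comp]
        ext <;> simp [Functor.map_comp, hwu, shIn]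
    have a5 : Triangle.mk (biprod.lift (𝟙 Z) w) (biprod.desc (-w) (𝟙 _))
        (((-(u⟦(1 : ℤ)⟧')) ≫ (biprod.inr : Y ⟶ Y ⊞ Y)⟦(1 : ℤ)⟧') ≫
          ((biprod.fst : Y ⊞ Y ⟶ Y) ≫ v)⟦(1 : ℤ)⟧') ∈ distTriang C := by
      have e : IsIso (biprod.desc (biprod.lift (𝟙 Z) w) biprod.inr :
          Z ⊞ X⟦(1 : ℤ)⟧ ⟶ Z ⊞ X⟦(1 : ℤ)⟧) := by
        refine ⟨biprod.desc (biprod.lift (𝟙 Z) (-w)) biprod.inr, ?_, ?_⟩ <;>
          ext <;> simp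
      refine dist_of_iso (biprod_dist Z (X⟦(1 : ℤ)⟧)) (𝟙 _)
        (biprod.desc (biprod.lift (𝟙 Z) w) biprod.inr) (𝟙 _) ?_ ?_ ?_
      · simp
      · ext <;> simp
      · simp [Functor.map_comp]
    -- the octahedron for `u' ∘ f`
    have b1 : ((biprod.fst : Y ⊞ Y ⟶ Y) ≫ v) ≫ (biprod.inl : Z ⟶ Z ⊞ X⟦(1 : ℤ)⟧)
        = biprod.map (𝟙 Y) v ≫ biprod.map v w := by
      ext <;> simp [hvw]
    have b2 : (biprod.inl : Z ⟶ Z ⊞ X⟦(1 : ℤ)⟧) ≫ biprod.map w (-(u⟦(1 : ℤ)⟧')) ≫ shIn X Y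
        = w ≫ (biprod.inl : X ⟶ X ⊞ Y)⟦(1 : ℤ)⟧' := by
      apply sh_ext
      · simp
      · simp
    have b3 : biprod.map v w ≫ (biprod.snd : Z ⊞ X⟦(1 : ℤ)⟧ ⟶ X⟦(1 : ℤ)⟧) = biprod.snd ≫ w :=
      biprod.map_snd _ _
    have b4 : (biprod.map w (-(u⟦(1 : ℤ)⟧')) ≫ shIn X Y) ≫ (biprod.map u (𝟙 Y))⟦(1 : ℤ)⟧'
        = biprod.snd ≫ (-(u⟦(1 : ℤ)⟧')) ≫ (biprod.inr : Y ⟶ Y ⊞ Y)⟦(1 : ℤ)⟧' := by
      rw [a4]
      ext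
      · simp [reassoc_of% hwu]
      · simp
    have b5 : Triangle.mk (biprod.inl : Z ⟶ Z ⊞ X⟦(1 : ℤ)⟧) biprod.snd
        (((-(u⟦(1 : ℤ)⟧')) ≫ (biprod.inr : Y ⟶ Y ⊞ Y)⟦(1 : ℤ)⟧') ≫
          ((biprod.fst : Y ⊞ Y ⟶ Y) ≫ v)⟦(1 : ℤ)⟧') ∈ distTriang C := by
      have : (((-(u⟦(1 : ℤ)⟧')) ≫ (biprod.inr : Y ⟶ Y ⊞ Y)⟦(1 : ℤ)⟧') ≫
          ((biprod.fst : Y ⊞ Y ⟶ Y) ≫ v)⟦(1 : ℤ)⟧') = 0 := by
        simp [Functor.map_comp]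
      rw [this]
      exact biprod_dist _ _
    refine ⟨Z ⊞ X⟦(1 : ℤ)⟧, Z, X⟦(1 : ℤ)⟧, biprod.map v w,
      biprod.map w (-(u⟦(1 : ℤ)⟧')) ≫ shIn X Y, h13, _, _, h₁, _, _, h₂,
      ⟨biprod.lift (𝟙 Z) w, biprod.desc (-w) (𝟙 _), a1, a2, a3, a4, a5⟩,
      ⟨biprod.inl, biprod.snd, b1, b2, b3, b4, b5⟩, ?_⟩
    change w = biprod.lift (𝟙 Z) w ≫ biprod.snd
    simp
  · intro hg
    obtain ⟨κ, hκ⟩ := good_factor h₁ h₂ w c2 c3 hg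
    exact ⟨(biprod.inl : X ⟶ X ⊞ Y)⟦(1 : ℤ)⟧' ≫ κ ≫ biprod.snd, by simpa using hκ⟩

/-- If every Verdier good map of `C` is good, then every morphism of `C` is von Neumann
regular. -/
theorem regular_of_verdierGood_imp_good
    (H : ∀ (T T' : Triangle C) (hT : T ∈ distTriang C) (hT' : T' ∈ distTriang C) (φ : T ⟶ T'),
      VerdierGood hT hT' φ → Good φ) {X Y : C} (f : X ⟶ Y) : ∃ g : Y ⟶ X, f ≫ g ≫ f = f := by
  obtain ⟨Z, a, b, hZ⟩ := distinguished_cocone_triangle f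
  obtain ⟨T, T', hT, hT', φ, hφ, hreg⟩ := verdierGood_not_good (rot_dist hZ)
  obtain ⟨θ, hθ⟩ := hreg (H T T' hT hT' φ hφ)
  obtain ⟨g, hg⟩ := (shiftFunctor C (1 : ℤ)).map_surjective θ
  refine ⟨-g, ?_⟩
  apply (shiftFunctor C (1 : ℤ)).map_injective
  rw [← hg] at hθ
  simp only [Preadditive.comp_neg, Preadditive.neg_comp, neg_neg] at hθ
  rw [Functor.map_comp, Functor.map_comp, Functor.map_neg, Preadditive.neg_comp,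
    Preadditive.comp_neg, ← hθ, neg_neg]

end

end Pool.Agent.VG
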