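import Pool.Agent.VG.Part1

/-!
# A criterion for the existence of a good map of triangles which is not Verdier good
-/

set_option autoImplicit false

open CategoryTheory Category Limits Pretriangulated Triangulated
open scoped ZeroObject

universe v u

namespace Pool.Agent.VG

noncomputable section

variable {C : Type u} [Category.{v} C] [Preadditive C] [HasZeroObject C] [HasShift C ℤ]
  [∀ n : ℤ, (shiftFunctor C n).Additive] [Pretriangulated C]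

/-- exactness at `X⟦1⟧` on the other side -/
lemma cy1 {X Y Z A : C} {u : X ⟶ Y} {v : Y ⟶ Z} {w : Z ⟶ X⟦(1 : ℤ)⟧}
    (h : Triangle.mk u v w ∈ distTriang C) (f : X⟦(1 : ℤ)⟧ ⟶ A) (hf : w ≫ f = 0) :
    ∃ g : Y⟦(1 : ℤ)⟧ ⟶ A, f = u⟦(1 : ℤ)⟧' ≫ g := by
  obtain ⟨g, hg⟩ := cy3 (rot_dist h) f hf
  exact ⟨-g, by rw [hg]; simp⟩

/-- uniqueness of the first factor of a Verdier good fill-in -/
lemma unique_m1 {X Y Z Y' A : C} {u : X ⟶ Y} {v : Y ⟶ Z} {w : Z ⟶ X⟦(1 : ℤ)⟧}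
    (hT : Triangle.mk u v w ∈ distTriang C) {g : Y ⟶ Y'}
    {v₁₃ : Y' ⟶ A} {w₁₃ : A ⟶ X⟦(1 : ℤ)⟧} (hA : Triangle.mk (u ≫ g) v₁₃ w₁₃ ∈ distTriang C)
    (V2 : ∀ ζ : Y ⟶ X, u ≫ ζ ≫ u ≫ g = 0 → ζ ≫ u ≫ g = 0)
    (V3 : ∀ l : X⟦(1 : ℤ)⟧ ⟶ Y', l = 0)
    (κ : Z ⟶ A) (h1 : v ≫ κ = 0) (h2 : κ ≫ w₁₃ = 0) : κ = 0 := by
  obtain ⟨κ', hκ'⟩ := cy3 hT κ h1
  have h3 : w ≫ κ' ≫ w₁₃ = 0 := by rw [← assoc, ← hκ', h2]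
  obtain ⟨z, hz⟩ := cy1 hT _ h3
  obtain ⟨ζ, rfl⟩ := (shiftFunctor C (1 : ℤ)).map_surjective z
  have h4 : u ≫ ζ ≫ u ≫ g = 0 := by
    apply (shiftFunctor C (1 : ℤ)).map_injective
    rw [Functor.map_comp, Functor.map_comp, ← assoc, ← hz, Functor.map_zero, assoc, z31 hA,
      comp_zero]
  have h5 : ζ⟦(1 : ℤ)⟧' ≫ (u ≫ g)⟦(1 : ℤ)⟧' = 0 := by
    rw [← Functor.map_comp, V2 ζ h4, Functor.map_zero]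
  obtain ⟨ζ', hζ'⟩ := yo1 hA _ h5
  have h6 : (κ' - u⟦(1 : ℤ)⟧' ≫ ζ') ≫ w₁₃ = 0 := by
    rw [Preadditive.sub_comp, hz, assoc, ← hζ', sub_self]
  obtain ⟨l, hl⟩ := yo3 hA _ h6
  rw [V3 l, zero_comp, sub_eq_zero] at hl
  rw [hκ', hl, ← assoc, z31 hT, zero_comp]

/-- uniqueness of the second factor of a Verdier good fill-in -/
lemma unique_m3 {X Y' A K M : C} {a : X ⟶ Y'}
    {v₁₃ : Y' ⟶ A} {w₁₃ : A ⟶ X⟦(1 : ℤ)⟧} (hA : Triangle.mk a v₁₃ w₁₃ ∈ distTriang C)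
    (t : K ⟶ M)
    (V1 : ∀ (φ : X ⟶ K) (τ : Y' ⟶ M), φ ≫ t = a ≫ τ → ∃ τ' : Y' ⟶ K, φ = a ≫ τ')
    (μ : A ⟶ K⟦(1 : ℤ)⟧) (h1 : v₁₃ ≫ μ = 0) (h2 : μ ≫ t⟦(1 : ℤ)⟧' = 0) : μ = 0 := by
  obtain ⟨m, hm⟩ := cy3 hA μ h1
  obtain ⟨φ, rfl⟩ := (shiftFunctor C (1 : ℤ)).map_surjective m
  have h3 : w₁₃ ≫ (φ ≫ t)⟦(1 : ℤ)⟧' = 0 := by
    rw [Functor.map_comp, ← assoc, ← hm, h2]
  obtain ⟨s, hs⟩ := cy1 hA _ h3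
  obtain ⟨τ, rfl⟩ := (shiftFunctor C (1 : ℤ)).map_surjective s
  have h4 : φ ≫ t = a ≫ τ := by
    apply (shiftFunctor C (1 : ℤ)).map_injective
    rw [hs, Functor.map_comp]
  obtain ⟨τ', hτ'⟩ := V1 φ τ h4
  rw [hm, hτ', Functor.map_comp, ← assoc, z31 hA, zero_comp]

/-- If the two factors are unique then there is at most one Verdier good fill-in. -/
lemma verdier_unique {T T' : Triangle C} (hT : T ∈ distTriang C) (hT' : T' ∈ distTriang C)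
    (φ φ' : T ⟶ T') (e1 : φ'.hom₁ = φ.hom₁) (e2 : φ'.hom₂ = φ.hom₂)
    (U1 : ∀ {A : C} {v₁₃ : T'.obj₂ ⟶ A} {w₁₃ : A ⟶ T.obj₁⟦(1 : ℤ)⟧},
      Triangle.mk (T.mor₁ ≫ φ.hom₂) v₁₃ w₁₃ ∈ distTriang C →
      ∀ κ : T.obj₃ ⟶ A, T.mor₂ ≫ κ = 0 → κ ≫ w₁₃ = 0 → κ = 0)
    (U3 : ∀ {A : C} {v₁₃ : T'.obj₂ ⟶ A} {w₁₃ : A ⟶ T.obj₁⟦(1 : ℤ)⟧},
      Triangle.mk (T.mor₁ ≫ φ.hom₂) v₁₃ w₁₃ ∈ distTriang C →
      ∀ μ : A ⟶ T'.obj₃, v₁₃ ≫ μ = 0 → μ ≫ T'.mor₃ = 0 → μ = 0)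
    (h : VerdierGood hT hT' φ) (h' : VerdierGood hT hT' φ') : φ.hom₃ = φ'.hom₃ := by
  obtain ⟨A, _, _, p, q, hA, _, _, _, _, _, _, O₁, O₂, hO⟩ := h
  obtain ⟨A', _, _, p', q', hA', _, _, _, _, _, _, O₁', O₂', hO'⟩ := h'
  have hA'' : Triangle.mk (T.mor₁ ≫ φ.hom₂) p' q' ∈ distTriang C := by
    rw [← e2]; exact hA'
  obtain ⟨e, he1, he2⟩ := complete_mk hA hA'' (𝟙 _) (𝟙 _) (by rw [comp_id, id_comp])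
  rw [id_comp] at he1
  rw [CategoryTheory.Functor.map_id, comp_id] at he2
  have k1 : O₁.m₁ ≫ e - O₁'.m₁ = 0 := by
    apply U1 hA''
    · rw [Preadditive.comp_sub, O₁.comm₁_assoc, O₁'.comm₁, he1, e2, sub_self]
    · rw [Preadditive.sub_comp, assoc, ← he2, O₁.comm₂, O₁'.comm₂, sub_self]
  have k3 : O₂.m₃ - e ≫ O₂'.m₃ = 0 := by
    apply U3 hA
    · rw [Preadditive.comp_sub, O₂.comm₃, ← assoc, he1, O₂'.comm₃, sub_self]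
    · rw [Preadditive.sub_comp, ← O₂.comm₄, assoc, ← O₂'.comm₄, ← assoc, ← he2, e1, sub_self]
  rw [sub_eq_zero] at k1 k3
  rw [hO, hO', k3, ← assoc, k1]

/-- Changing a good fill-in. -/
lemma good_change {X Y Z X' Y' Z' : C} {u : X ⟶ Y} {v : Y ⟶ Z} {w : Z ⟶ X⟦(1 : ℤ)⟧}
    {u' : X' ⟶ Y'} {v' : Y' ⟶ Z'} {w' : Z' ⟶ X'⟦(1 : ℤ)⟧}
    (f : X ⟶ X') (g : Y ⟶ Y') (h h' : Z ⟶ Z')
    (χ : X⟦(1 : ℤ)⟧ ⟶ X⟦(1 : ℤ)⟧) (π : X⟦(1 : ℤ)⟧ ⟶ Z') (ε : Z' ⟶ X⟦(1 : ℤ)⟧)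
    (hh : h' = h - w ≫ π) (hχ : w ≫ χ = h ≫ ε) (hε : v' ≫ ε = 0)
    (k1 : χ ≫ u⟦(1 : ℤ)⟧' = 0) (k2 : ε ≫ u⟦(1 : ℤ)⟧' = 0)
    (k3 : χ ≫ f⟦(1 : ℤ)⟧' + π ≫ w' = 0) (k4 : ε ≫ f⟦(1 : ℤ)⟧' = 0)
    (n1 : χ ≫ χ + π ≫ ε = 0) (n2 : ε ≫ χ = 0) (n3 : χ ≫ π = 0) (n4 : ε ≫ π = 0)
    (hg : Triangle.mk
      (biprod.desc (biprod.lift (-v) g) (biprod.lift 0 u') : Y ⊞ X' ⟶ Z ⊞ Y')
      (biprod.desc (biprod.lift (-w) h) (biprod.lift 0 v') : Z ⊞ Y' ⟶ X⟦(1 : ℤ)⟧ ⊞ Z')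
      (biprod.desc (-(u⟦(1 : ℤ)⟧') ≫ (biprod.inl : Y ⟶ Y ⊞ X')⟦(1 : ℤ)⟧'
        + f⟦(1 : ℤ)⟧' ≫ (biprod.inr : X' ⟶ Y ⊞ X')⟦(1 : ℤ)⟧')
      (w' ≫ (biprod.inr : X' ⟶ Y ⊞ X')⟦(1 : ℤ)⟧')) ∈ distTriang C) :
    Triangle.mk
      (biprod.desc (biprod.lift (-v) g) (biprod.lift 0 u') : Y ⊞ X' ⟶ Z ⊞ Y')
      (biprod.desc (biprod.lift (-w) h') (biprod.lift 0 v') : Z ⊞ Y' ⟶ X⟦(1 : ℤ)⟧ ⊞ Z')
      (biprod.desc (-(u⟦(1 : ℤ)⟧') ≫ (biprod.inl : Y ⟶ Y ⊞ X')⟦(1 : ℤ)⟧'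
        + f⟦(1 : ℤ)⟧' ≫ (biprod.inr : X' ⟶ Y ⊞ X')⟦(1 : ℤ)⟧')
      (w' ≫ (biprod.inr : X' ⟶ Y ⊞ X')⟦(1 : ℤ)⟧')) ∈ distTriang C := by
  have hk : IsIso (𝟙 _ + biprod.desc (biprod.lift χ π) (biprod.lift ε 0) :
      X⟦(1 : ℤ)⟧ ⊞ Z' ⟶ X⟦(1 : ℤ)⟧ ⊞ Z') := by
    have hη : (biprod.desc (biprod.lift χ π) (biprod.lift ε 0) :
      X⟦(1 : ℤ)⟧ ⊞ Z' ⟶ X⟦(1 : ℤ)⟧ ⊞ Z') ≫ biprod.desc (biprod.lift χ π) (biprod.lift ε 0)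
        = 0 := by
      ext <;> simp [n1, n2, n3, n4, biprod.lift_desc]
    refine ⟨𝟙 _ - biprod.desc (biprod.lift χ π) (biprod.lift ε 0), ?_, ?_⟩
    · rw [Preadditive.add_comp, Preadditive.comp_sub, Preadditive.comp_sub, hη]
      simp
    · rw [Preadditive.sub_comp, Preadditive.comp_add, Preadditive.comp_add, hη]
      simp
  refine dist_of_iso hg (𝟙 _) (𝟙 _)
    (𝟙 _ + biprod.desc (biprod.lift χ π) (biprod.lift ε 0)) ?_ ?_ ?_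
  · rw [comp_id, id_comp]
  · rw [id_comp, Preadditive.comp_add, comp_id, hh]
    ext
    · simp [biprod.lift_desc, hχ]
    · simp [biprod.lift_desc, sub_eq_add_neg]
    · simp [biprod.lift_desc, hε]
    · simp [biprod.lift_desc]
  · rw [CategoryTheory.Functor.map_id, comp_id, Preadditive.add_comp, id_comp]
    symm
    rw [add_eq_left]
    ext
    · rw [biprod.inl_desc_assoc, biprod.lift_desc, comp_zero, Preadditive.comp_add, add_assoc,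
        ← assoc π, ← assoc χ (f⟦(1 : ℤ)⟧'), ← Preadditive.add_comp, k3, zero_comp, add_zero,
        Preadditive.comp_neg, ← assoc, k1, zero_comp, neg_zero]
    · rw [biprod.inr_desc_assoc, biprod.lift_desc, comp_zero, Preadditive.comp_add, zero_comp,
        add_zero, ← assoc ε (f⟦(1 : ℤ)⟧'), k4, zero_comp, add_zero,
        Preadditive.comp_neg, ← assoc, k2, zero_comp, neg_zero]

/-- Two maps out of `(X ⊞ Y)⟦1⟧` agree if they agree on both summands. -/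
lemma sh_hom_ext {A X Y : C} {f g : (X ⊞ Y)⟦(1 : ℤ)⟧ ⟶ A}
    (h1 : (biprod.inl : X ⟶ X ⊞ Y)⟦(1 : ℤ)⟧' ≫ f = (biprod.inl : X ⟶ X ⊞ Y)⟦(1 : ℤ)⟧' ≫ g)
    (h2 : (biprod.inr : Y ⟶ X ⊞ Y)⟦(1 : ℤ)⟧' ≫ f = (biprod.inr : Y ⟶ X ⊞ Y)⟦(1 : ℤ)⟧' ≫ g) :
    f = g := by
  have h : shIn X Y ≫ f = shIn X Y ≫ g := by
    unfold shIn
    ext
    · simpa using h1
    · simpa using h2
  calc f = shOut X Y ≫ shIn X Y ≫ f := by rw [← assoc, shOut_shIn, id_comp]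
    _ = g := by rw [h, ← assoc, shOut_shIn, id_comp]

/-- The good map of triangles attached to `t : K ⟶ M` and `r, f : X ⟶ M`. -/
lemma good_octahedral {X K M B W : C} {t : K ⟶ M} {d : M ⟶ B} {δ : B ⟶ K⟦(1 : ℤ)⟧}
    (hd : Triangle.mk t d δ ∈ distTriang C) (r f : X ⟶ M)
    {i : M ⊞ M ⟶ W} {ω : W ⟶ (X ⊞ K)⟦(1 : ℤ)⟧}
    (hΔ : Triangle.mk (biprod.desc (biprod.lift r f) (biprod.lift 0 t) : X ⊞ K ⟶ M ⊞ M) i ω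
      ∈ distTriang C)
    (m : M ⊞ B ⟶ W) (hm : biprod.map (𝟙 M) d ≫ m = i)
    (hmω : m ≫ ω = biprod.snd ≫ δ ≫ (biprod.inr : K ⟶ X ⊞ K)⟦(1 : ℤ)⟧') :
    Triangle.mk
      (biprod.desc (biprod.lift (-m) biprod.snd) (biprod.lift 0 d) : (M ⊞ B) ⊞ M ⟶ W ⊞ B)
      (biprod.desc (biprod.lift (-(ω ≫ (biprod.fst : X ⊞ K ⟶ X)⟦(1 : ℤ)⟧'))
        (ω ≫ (biprod.snd : X ⊞ K ⟶ K)⟦(1 : ℤ)⟧')) (biprod.lift 0 δ) :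
          W ⊞ B ⟶ X⟦(1 : ℤ)⟧ ⊞ K⟦(1 : ℤ)⟧)
      (biprod.desc (-((biprod.lift r (f ≫ d))⟦(1 : ℤ)⟧') ≫
          (biprod.inl : M ⊞ B ⟶ (M ⊞ B) ⊞ M)⟦(1 : ℤ)⟧'
        + f⟦(1 : ℤ)⟧' ≫ (biprod.inr : M ⟶ (M ⊞ B) ⊞ M)⟦(1 : ℤ)⟧')
      ((-(t⟦(1 : ℤ)⟧')) ≫ (biprod.inr : M ⟶ (M ⊞ B) ⊞ M)⟦(1 : ℤ)⟧')) ∈ distTriang C := by
  have h0 := add_contr_right (rot_dist hΔ) B
  obtain ⟨a, b, rfl⟩ : ∃ (a : M ⟶ W) (b : B ⟶ W), m = biprod.desc a b :=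
    ⟨biprod.inl ≫ m, biprod.inr ≫ m, by ext <;> simp⟩
  have hb : b ≫ ω = δ ≫ (biprod.inr : K ⟶ X ⊞ K)⟦(1 : ℤ)⟧' := by
    have := congrArg (fun x => biprod.inr ≫ x) hmω
    simpa using this
  -- the three isomorphisms
  let e1 : (M ⊞ M) ⊞ B ⟶ (M ⊞ B) ⊞ M :=
    biprod.desc (biprod.desc (biprod.lift (biprod.lift (-(𝟙 M)) 0) 0)
      (biprod.lift (biprod.lift 0 (-d)) (𝟙 M))) (biprod.lift (biprod.lift 0 (𝟙 B)) 0)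
  let e1' : (M ⊞ B) ⊞ M ⟶ (M ⊞ M) ⊞ B :=
    biprod.desc (biprod.desc (biprod.lift (biprod.lift (-(𝟙 M)) 0) 0)
      (biprod.lift 0 (𝟙 B))) (biprod.lift (biprod.lift 0 (𝟙 M)) d)
  have i1 : IsIso e1 := by
    refine ⟨e1', ?_, ?_⟩ <;> ext <;> simp [e1, e1']
  let e2 : W ⊞ B ⟶ W ⊞ B := biprod.desc (biprod.lift (𝟙 W) 0)
    (biprod.lift (-b) (𝟙 B))
  let e2' : W ⊞ B ⟶ W ⊞ B := biprod.desc (biprod.lift (𝟙 W) 0)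
    (biprod.lift b (𝟙 B))
  have i2 : IsIso e2 := by
    refine ⟨e2', ?_, ?_⟩ <;> ext <;> simp [e2, e2']
  let e3 : (X ⊞ K)⟦(1 : ℤ)⟧ ⟶ X⟦(1 : ℤ)⟧ ⊞ K⟦(1 : ℤ)⟧ :=
    biprod.lift (-((biprod.fst : X ⊞ K ⟶ X)⟦(1 : ℤ)⟧')) ((biprod.snd : X ⊞ K ⟶ K)⟦(1 : ℤ)⟧')
  let e3' : X⟦(1 : ℤ)⟧ ⊞ K⟦(1 : ℤ)⟧ ⟶ (X ⊞ K)⟦(1 : ℤ)⟧ :=
    biprod.desc (-((biprod.inl : X ⟶ X ⊞ K)⟦(1 : ℤ)⟧')) ((biprod.inr : K ⟶ X ⊞ K)⟦(1 : ℤ)⟧')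
  have i3 : IsIso e3 := by
    refine ⟨e3', ?_, ?_⟩
    · apply sh_ext <;> simp [e3, e3', biprod.lift_desc]
    · ext <;> simp [e3, e3']
  have hi : i = biprod.desc a (d ≫ b) := by
    rw [← hm]
    ext <;> simp
  refine dist_of_iso h0 e1 e2 e3 ?_ ?_ ?_
  · rw [hi]
    ext <;> simp [e1, e2]
  · have q1 : (b ≫ ω) ≫ (biprod.fst : X ⊞ K ⟶ X)⟦(1 : ℤ)⟧' = 0 := by
      rw [hb]; simp
    have q2 : (b ≫ ω) ≫ (biprod.snd : X ⊞ K ⟶ K)⟦(1 : ℤ)⟧' = δ := by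
      rw [hb]; simp
    rw [assoc] at q1 q2
    ext
    · simp [e2, e3]
    · simp [e2, e3]
    · simp [e2, e3, q1]
    · simp [e2, e3, q2]
  · have htd : t ≫ d = 0 := z12 hd
    apply sh_hom_ext
    · have lhs : (biprod.inl : X ⟶ X ⊞ K)⟦(1 : ℤ)⟧' ≫
          ((-((biprod.desc (biprod.lift r f) (biprod.lift 0 t) : X ⊞ K ⟶ M ⊞ M)⟦(1 : ℤ)⟧')) ≫
            (biprod.inl : M ⊞ M ⟶ (M ⊞ M) ⊞ B)⟦(1 : ℤ)⟧') ≫ e1⟦(1 : ℤ)⟧'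
          = (biprod.lift r (f ≫ d) ≫ biprod.inl - f ≫ biprod.inr)⟦(1 : ℤ)⟧' := by
        rw [Preadditive.neg_comp, Preadditive.neg_comp, Preadditive.comp_neg, assoc,
          ← Functor.map_comp, ← Functor.map_comp, ← Functor.map_comp, ← Functor.map_neg]
        congr 1
        ext <;> simp [e1]
      rw [lhs]
      simp only [e3, biprod.lift_desc, Preadditive.comp_add, sh_inl_fst_assoc, sh_inl_snd_assoc,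
        Preadditive.neg_comp, Preadditive.comp_neg, zero_comp, neg_neg, add_zero,
        Functor.map_sub, Functor.map_comp, neg_zero]
      abel
    · have lhs : (biprod.inr : K ⟶ X ⊞ K)⟦(1 : ℤ)⟧' ≫
          ((-((biprod.desc (biprod.lift r f) (biprod.lift 0 t) : X ⊞ K ⟶ M ⊞ M)⟦(1 : ℤ)⟧')) ≫
            (biprod.inl : M ⊞ M ⟶ (M ⊞ M) ⊞ B)⟦(1 : ℤ)⟧') ≫ e1⟦(1 : ℤ)⟧'
          = (-(t ≫ biprod.inr))⟦(1 : ℤ)⟧' := by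
        rw [Preadditive.neg_comp, Preadditive.neg_comp, Preadditive.comp_neg, assoc,
          ← Functor.map_comp, ← Functor.map_comp, ← Functor.map_comp, ← Functor.map_neg]
        congr 1
        ext <;> simp [e1, htd]
      rw [lhs]
      simp only [e3, biprod.lift_desc, Preadditive.comp_add, sh_inr_fst_assoc, sh_inr_snd_assoc,
        Preadditive.neg_comp, Preadditive.comp_neg, zero_comp, neg_neg, add_zero, zero_add,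
        Functor.map_neg, Functor.map_comp, neg_zero]

/-- adding a contractible summand: the triangle on `t ≫ inr : K ⟶ M ⊞ M` -/
lemma dist_inr {K M B : C} {t : K ⟶ M} {d : M ⟶ B} {δ : B ⟶ K⟦(1 : ℤ)⟧}
    (hd : Triangle.mk t d δ ∈ distTriang C) :
    Triangle.mk (t ≫ (biprod.inr : M ⟶ M ⊞ M)) (biprod.map (𝟙 M) d) (biprod.snd ≫ δ)
      ∈ distTriang C := by
  have h0 : Triangle.mk (0 : (0 : C) ⟶ M) (𝟙 M) (0 : M ⟶ (0 : C)⟦(1 : ℤ)⟧) ∈ distTriang C :=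
    contractible_distinguished₁ M
  have h1 := sum_dist h0 hd
  have : IsIso (biprod.snd : (0 : C) ⊞ K ⟶ K) :=
    ⟨biprod.inr, by ext; simp, by simp⟩
  refine dist_of_iso h1 (biprod.snd : (0 : C) ⊞ K ⟶ K) (𝟙 _) (𝟙 _) ?_ ?_ ?_
  · ext <;> simp
  · simp
  · simp

/-- the triangle on `inr : K ⟶ X ⊞ K` -/
lemma dist_inr_fst (X K : C) :
    Triangle.mk (biprod.inr : K ⟶ X ⊞ K) (biprod.fst : X ⊞ K ⟶ X) (0 : X ⟶ K⟦(1 : ℤ)⟧)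
      ∈ distTriang C := by
  have : IsIso (biprod.lift biprod.snd biprod.fst : K ⊞ X ⟶ X ⊞ K) :=
    ⟨biprod.lift biprod.snd biprod.fst, by ext <;> simp, by ext <;> simp⟩
  refine dist_of_iso (biprod_dist K X) (𝟙 _)
    (biprod.lift biprod.snd biprod.fst : K ⊞ X ⟶ X ⊞ K) (𝟙 _) ?_ ?_ ?_
  · ext <;> simp
  · simp
  · simp

end

end Pool.Agent.VG
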