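import Pool.Agent.VG.Defs

/-!
# Direct sums of distinguished triangles
-/

set_option autoImplicit false

open CategoryTheory Category Limits Pretriangulated Triangulated

universe v u

namespace Pool.Agent.VG

noncomputable section

variable {C : Type u} [Category.{v} C] [Preadditive C] [HasZeroObject C] [HasShift C ℤ]
  [∀ n : ℤ, (shiftFunctor C n).Additive] [Pretriangulated C]

/-! ### The exactness lemmas of Mathlib, for triangles given by three maps -/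

lemma complete_mk {X Y Z X' Y' Z' : C} {u : X ⟶ Y} {v : Y ⟶ Z} {w : Z ⟶ X⟦(1 : ℤ)⟧}
    {u' : X' ⟶ Y'} {v' : Y' ⟶ Z'} {w' : Z' ⟶ X'⟦(1 : ℤ)⟧}
    (h : Triangle.mk u v w ∈ distTriang C) (h' : Triangle.mk u' v' w' ∈ distTriang C)
    (a : X ⟶ X') (b : Y ⟶ Y') (comm : u ≫ b = a ≫ u') :
    ∃ c : Z ⟶ Z', v ≫ c = b ≫ v' ∧ w ≫ a⟦(1 : ℤ)⟧' = c ≫ w' :=
  complete_distinguished_triangle_morphism _ _ h h' a b comm

lemma yo2 {X Y Z A : C} {u : X ⟶ Y} {v : Y ⟶ Z} {w : Z ⟶ X⟦(1 : ℤ)⟧}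
    (h : Triangle.mk u v w ∈ distTriang C) (f : A ⟶ Y) (hf : f ≫ v = 0) :
    ∃ g : A ⟶ X, f = g ≫ u := Triangle.coyoneda_exact₂ _ h f hf

lemma yo3 {X Y Z A : C} {u : X ⟶ Y} {v : Y ⟶ Z} {w : Z ⟶ X⟦(1 : ℤ)⟧}
    (h : Triangle.mk u v w ∈ distTriang C) (f : A ⟶ Z) (hf : f ≫ w = 0) :
    ∃ g : A ⟶ Y, f = g ≫ v := Triangle.coyoneda_exact₃ _ h f hf

lemma yo1 {X Y Z A : C} {u : X ⟶ Y} {v : Y ⟶ Z} {w : Z ⟶ X⟦(1 : ℤ)⟧}
    (h : Triangle.mk u v w ∈ distTriang C) (f : A ⟶ X⟦(1 : ℤ)⟧) (hf : f ≫ u⟦1⟧' = 0) :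
    ∃ g : A ⟶ Z, f = g ≫ w := Triangle.coyoneda_exact₁ _ h f hf

lemma cy2 {X Y Z A : C} {u : X ⟶ Y} {v : Y ⟶ Z} {w : Z ⟶ X⟦(1 : ℤ)⟧}
    (h : Triangle.mk u v w ∈ distTriang C) (f : Y ⟶ A) (hf : u ≫ f = 0) :
    ∃ g : Z ⟶ A, f = v ≫ g := Triangle.yoneda_exact₂ _ h f hf

lemma cy3 {X Y Z A : C} {u : X ⟶ Y} {v : Y ⟶ Z} {w : Z ⟶ X⟦(1 : ℤ)⟧}
    (h : Triangle.mk u v w ∈ distTriang C) (f : Z ⟶ A) (hf : v ≫ f = 0) :
    ∃ g : X⟦(1 : ℤ)⟧ ⟶ A, f = w ≫ g := Triangle.yoneda_exact₃ _ h f hf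

lemma z12 {X Y Z : C} {u : X ⟶ Y} {v : Y ⟶ Z} {w : Z ⟶ X⟦(1 : ℤ)⟧}
    (h : Triangle.mk u v w ∈ distTriang C) : u ≫ v = 0 := comp_distTriang_mor_zero₁₂ _ h

lemma z23 {X Y Z : C} {u : X ⟶ Y} {v : Y ⟶ Z} {w : Z ⟶ X⟦(1 : ℤ)⟧}
    (h : Triangle.mk u v w ∈ distTriang C) : v ≫ w = 0 := comp_distTriang_mor_zero₂₃ _ h

lemma z31 {X Y Z : C} {u : X ⟶ Y} {v : Y ⟶ Z} {w : Z ⟶ X⟦(1 : ℤ)⟧}
    (h : Triangle.mk u v w ∈ distTriang C) : w ≫ u⟦(1 : ℤ)⟧' = 0 :=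
  comp_distTriang_mor_zero₃₁ _ h

/-- Recognising a distinguished triangle through an isomorphism. -/
lemma dist_of_iso {X Y Z X' Y' Z' : C} {u : X ⟶ Y} {v : Y ⟶ Z} {w : Z ⟶ X⟦(1 : ℤ)⟧}
    {u' : X' ⟶ Y'} {v' : Y' ⟶ Z'} {w' : Z' ⟶ X'⟦(1 : ℤ)⟧}
    (h : Triangle.mk u v w ∈ distTriang C)
    (a : X ⟶ X') (b : Y ⟶ Y') (c : Z ⟶ Z') [IsIso a] [IsIso b] [IsIso c]
    (h1 : u ≫ b = a ≫ u') (h2 : v ≫ c = b ≫ v') (h3 : w ≫ a⟦(1 : ℤ)⟧' = c ≫ w') :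
    Triangle.mk u' v' w' ∈ distTriang C := by
  let ia : X ≅ X' := asIso a
  let ib : Y ≅ Y' := asIso b
  let ic : Z ≅ Z' := asIso c
  exact isomorphic_distinguished _ h _
    (Triangle.isoMk (Triangle.mk u v w) (Triangle.mk u' v' w') ia ib ic h1 h2 h3).symm

/-- the canonical map `X⟦1⟧ ⊞ Y⟦1⟧ ⟶ (X ⊞ Y)⟦1⟧` -/
def shIn (X Y : C) : X⟦(1 : ℤ)⟧ ⊞ Y⟦(1 : ℤ)⟧ ⟶ (X ⊞ Y)⟦(1 : ℤ)⟧ :=
  biprod.desc ((biprod.inl : X ⟶ X ⊞ Y)⟦1⟧') ((biprod.inr : Y ⟶ X ⊞ Y)⟦1⟧')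

/-- the canonical map `(X ⊞ Y)⟦1⟧ ⟶ X⟦1⟧ ⊞ Y⟦1⟧` -/
def shOut (X Y : C) : (X ⊞ Y)⟦(1 : ℤ)⟧ ⟶ X⟦(1 : ℤ)⟧ ⊞ Y⟦(1 : ℤ)⟧ :=
  biprod.lift ((biprod.fst : X ⊞ Y ⟶ X)⟦1⟧') ((biprod.snd : X ⊞ Y ⟶ Y)⟦1⟧')

@[reassoc]
lemma shIn_shOut (X Y : C) : shIn X Y ≫ shOut X Y = 𝟙 _ := by
  unfold shIn shOut
  ext <;> simp [← Functor.map_comp]

@[reassoc]
lemma shOut_shIn (X Y : C) : shOut X Y ≫ shIn X Y = 𝟙 _ := by
  unfold shIn shOut
  rw [biprod.lift_desc, ← Functor.map_comp, ← Functor.map_comp, ← Functor.map_add,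
    biprod.total, CategoryTheory.Functor.map_id]

/-- Two maps into `(X ⊞ Y)⟦1⟧` agree if their two components do. -/
lemma sh_ext {A X Y : C} {f g : A ⟶ (X ⊞ Y)⟦(1 : ℤ)⟧}
    (h1 : f ≫ (biprod.fst : X ⊞ Y ⟶ X)⟦(1 : ℤ)⟧' = g ≫ (biprod.fst : X ⊞ Y ⟶ X)⟦(1 : ℤ)⟧')
    (h2 : f ≫ (biprod.snd : X ⊞ Y ⟶ Y)⟦(1 : ℤ)⟧' = g ≫ (biprod.snd : X ⊞ Y ⟶ Y)⟦(1 : ℤ)⟧') :
    f = g := by
  have h : f ≫ shOut X Y = g ≫ shOut X Y := by
    unfold shOut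
    ext
    · simpa using h1
    · simpa using h2
  calc f = (f ≫ shOut X Y) ≫ shIn X Y := by rw [assoc, shOut_shIn, comp_id]
    _ = g := by rw [h, assoc, shOut_shIn, comp_id]

@[reassoc (attr := simp)]
lemma sh_inl_fst (X Y : C) : (biprod.inl : X ⟶ X ⊞ Y)⟦(1 : ℤ)⟧' ≫
    (biprod.fst : X ⊞ Y ⟶ X)⟦(1 : ℤ)⟧' = 𝟙 _ := by
  rw [← Functor.map_comp, biprod.inl_fst, CategoryTheory.Functor.map_id]

@[reassoc (attr := simp)]
lemma sh_inl_snd (X Y : C) : (biprod.inl : X ⟶ X ⊞ Y)⟦(1 : ℤ)⟧' ≫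
    (biprod.snd : X ⊞ Y ⟶ Y)⟦(1 : ℤ)⟧' = 0 := by
  rw [← Functor.map_comp, biprod.inl_snd, Functor.map_zero]

@[reassoc (attr := simp)]
lemma sh_inr_fst (X Y : C) : (biprod.inr : Y ⟶ X ⊞ Y)⟦(1 : ℤ)⟧' ≫
    (biprod.fst : X ⊞ Y ⟶ X)⟦(1 : ℤ)⟧' = 0 := by
  rw [← Functor.map_comp, biprod.inr_fst, Functor.map_zero]

@[reassoc (attr := simp)]
lemma sh_inr_snd (X Y : C) : (biprod.inr : Y ⟶ X ⊞ Y)⟦(1 : ℤ)⟧' ≫
    (biprod.snd : X ⊞ Y ⟶ Y)⟦(1 : ℤ)⟧' = 𝟙 _ := by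
  rw [← Functor.map_comp, biprod.inr_snd, CategoryTheory.Functor.map_id]

@[reassoc (attr := simp)]
lemma shIn_fst (X Y : C) : shIn X Y ≫ (biprod.fst : X ⊞ Y ⟶ X)⟦(1 : ℤ)⟧' = biprod.fst := by
  unfold shIn
  ext <;> simp

@[reassoc (attr := simp)]
lemma shIn_snd (X Y : C) : shIn X Y ≫ (biprod.snd : X ⊞ Y ⟶ Y)⟦(1 : ℤ)⟧' = biprod.snd := by
  unfold shIn
  ext <;> simp

/-- The direct sum of two distinguished triangles is distinguished. -/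
lemma sum_dist {X Y Z X' Y' Z' : C} {u : X ⟶ Y} {v : Y ⟶ Z} {w : Z ⟶ X⟦(1 : ℤ)⟧}
    {u' : X' ⟶ Y'} {v' : Y' ⟶ Z'} {w' : Z' ⟶ X'⟦(1 : ℤ)⟧}
    (h : Triangle.mk u v w ∈ distTriang C) (h' : Triangle.mk u' v' w' ∈ distTriang C) :
    Triangle.mk (biprod.map u u') (biprod.map v v') (biprod.map w w' ≫ shIn X X')
      ∈ distTriang C := by
  obtain ⟨E, p, q, hE⟩ := distinguished_cocone_triangle (biprod.map u u')
  obtain ⟨a, ha1, ha2⟩ := complete_mk hE h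
    (biprod.fst : X ⊞ X' ⟶ X) (biprod.fst : Y ⊞ Y' ⟶ Y) (biprod.map_fst _ _)
  obtain ⟨b, hb1, hb2⟩ := complete_mk hE h'
    (biprod.snd : X ⊞ X' ⟶ X') (biprod.snd : Y ⊞ Y' ⟶ Y') (biprod.map_snd _ _)
  -- `k : E ⟶ Z ⊞ Z'`
  obtain ⟨k, hkf, hks⟩ : ∃ k : E ⟶ Z ⊞ Z', k ≫ biprod.fst = a ∧ k ≫ biprod.snd = b :=
    ⟨biprod.lift a b, by simp, by simp⟩
  have hk1 : p ≫ k = biprod.map v v' := by
    ext <;> simp [hkf, hks, ha1, hb1]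
  have hk2 : q = k ≫ biprod.map w w' ≫ shIn X X' := by
    apply sh_ext
    · rw [ha2]; simp [← hkf]
    · rw [hb2]; simp [← hks]
  have hiso : IsIso k := by
    refine isIso_of_yoneda_map_bijective _ (fun A => ⟨?_, ?_⟩)
    · intro x y hxy
      rw [← sub_eq_zero]
      set s := x - y with hs
      have hsk : s ≫ k = 0 := by
        rw [hs, Preadditive.sub_comp, sub_eq_zero]
        exact hxy
      have hsq : s ≫ q = 0 := by rw [hk2, reassoc_of% hsk, zero_comp]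
      obtain ⟨z, hz⟩ := yo3 hE s hsq
      have hz0 : z ≫ biprod.map v v' = 0 := by rw [← hk1, ← assoc, ← hz, hsk]
      have hz1 : (z ≫ biprod.fst) ≫ v = 0 := by
        have := congrArg (· ≫ biprod.fst) hz0
        simpa using this
      have hz2 : (z ≫ biprod.snd) ≫ v' = 0 := by
        have := congrArg (· ≫ biprod.snd) hz0
        simpa using this
      obtain ⟨t1, ht1⟩ := yo2 h _ hz1
      obtain ⟨t2, ht2⟩ := yo2 h' _ hz2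
      have hzz : z = biprod.lift t1 t2 ≫ biprod.map u u' := by
        ext
        · simp [ht1]
        · simp [ht2]
      rw [hz, hzz, assoc, z12 hE, comp_zero]
    · intro x
      -- lift of `x : A ⟶ Z ⊞ Z'`
      have h1 : (x ≫ biprod.map w w' ≫ shIn X X') ≫ (biprod.map u u')⟦(1 : ℤ)⟧' = 0 := by
        have e1 : w ≫ u⟦(1 : ℤ)⟧' = 0 := z31 h
        have e2 : w' ≫ u'⟦(1 : ℤ)⟧' = 0 := z31 h'
        have : biprod.map w w' ≫ shIn X X' ≫ (biprod.map u u')⟦(1 : ℤ)⟧' = 0 := by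
          unfold shIn
          ext
          · simp only [biprod.inl_map_assoc, biprod.inl_desc_assoc, ← Functor.map_comp,
              biprod.inl_map, comp_zero]
            rw [Functor.map_comp, reassoc_of% e1, zero_comp]
          · simp only [biprod.inr_map_assoc, biprod.inr_desc_assoc, ← Functor.map_comp,
              biprod.inr_map, comp_zero]
            rw [Functor.map_comp, reassoc_of% e2, zero_comp]
        rw [assoc, assoc, this, comp_zero]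
      obtain ⟨y, hy⟩ := yo1 hE _ h1
      -- `x - y ≫ k` is killed by `w ⊞ w'`
      have h2 : (x - y ≫ k) ≫ biprod.map w w' = 0 := by
        have : (x - y ≫ k) ≫ biprod.map w w' ≫ shIn X X' = 0 := by
          rw [Preadditive.sub_comp, assoc, ← hk2, ← hy, sub_self]
        calc (x - y ≫ k) ≫ biprod.map w w'
            = ((x - y ≫ k) ≫ biprod.map w w' ≫ shIn X X') ≫ shOut X X' := by
              rw [assoc, assoc, shIn_shOut, comp_id]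
          _ = 0 := by rw [this, zero_comp]
      have h3 : ((x - y ≫ k) ≫ biprod.fst) ≫ w = 0 := by
        have := congrArg (· ≫ biprod.fst) h2
        simpa using this
      have h4 : ((x - y ≫ k) ≫ biprod.snd) ≫ w' = 0 := by
        have := congrArg (· ≫ biprod.snd) h2
        simpa using this
      obtain ⟨s1, hs1⟩ := yo3 h _ h3
      obtain ⟨s2, hs2⟩ := yo3 h' _ h4
      refine ⟨y + biprod.lift s1 s2 ≫ p, ?_⟩
      have h5 : biprod.lift s1 s2 ≫ p ≫ k = x - y ≫ k := by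
        rw [hk1]
        ext
        · rw [hs1]; simp
        · rw [hs2]; simp
      change (y + biprod.lift s1 s2 ≫ p) ≫ k = x
      rw [Preadditive.add_comp, assoc, h5]
      abel
  refine dist_of_iso hE (𝟙 _) (𝟙 _) k ?_ ?_ ?_
  · rw [comp_id, id_comp]
  · rw [hk1, id_comp]
  · rw [CategoryTheory.Functor.map_id, comp_id, hk2]

end

end Pool.Agent.VG
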